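import Pool.Agent.Helper35.PI.St3

set_option autoImplicit false

namespace Helper84.PI

open Helper35.PI
open scoped ContDiff Manifold Topology ENNReal BigOperators
open MeasureTheory Set Filter

/-- `nsq = 0` implies `sff = 0` -/
private lemma FL_sff (hFR : StFR) {n N : ℕ} (f : EE n → EE N) (x : EE n) (hLI : LI f x)
    (h0 : nsq f x = 0) (i j : Fin n) : sff f x i j = 0 := by
  obtain ⟨-, -, P, -, hP, -, -, -, -, hX⟩ := hFR n N f x hLI
  have h1 := hX (sff f x) (sff f x)
  have h2 : ∑ a, ∑ b, (inner ℝ (∑ i, ∑ j, (P i a * P j b) • sff f x i j)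
      (∑ i, ∑ j, (P i a * P j b) • sff f x i j) : ℝ) = 0 := by
    rw [← h1]; exact h0
  have h3 : ∀ a b, ∑ i, ∑ j, (P i a * P j b) • sff f x i j = 0 := by
    intro a b
    have h4 := (Finset.sum_eq_zero_iff_of_nonneg (fun a _ => Finset.sum_nonneg
      (fun b _ => real_inner_self_nonneg))).1 h2 a (Finset.mem_univ a)
    have h5 := (Finset.sum_eq_zero_iff_of_nonneg (fun b _ => real_inner_self_nonneg)).1 h4 b
      (Finset.mem_univ b)
    exact inner_self_eq_zero.1 h5
  have hPu : IsUnit P := (Matrix.isUnit_iff_isUnit_det P).2 hP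
  have hPt : IsUnit P.transpose := by
    rw [Matrix.isUnit_iff_isUnit_det, Matrix.det_transpose]; exact hP
  have h6 : ∀ w : EE N, (Matrix.of fun i j => (inner ℝ (sff f x i j) w : ℝ)) = 0 := by
    intro w
    set X : Matrix (Fin n) (Fin n) ℝ := Matrix.of fun i j => (inner ℝ (sff f x i j) w : ℝ) with hXd
    have h7 : P.transpose * X * P = 0 := by
      ext a b
      have h8 : (inner ℝ (∑ i, ∑ j, (P i a * P j b) • sff f x i j) w : ℝ) = 0 := by
        rw [h3 a b, inner_zero_left]
      rw [Matrix.zero_apply, ← h8, sum_inner, Matrix.mul_apply]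
      simp only [Matrix.mul_apply, Matrix.transpose_apply, hXd, Matrix.of_apply]
      simp only [Finset.sum_mul]
      rw [Finset.sum_comm]
      refine Finset.sum_congr rfl fun i _ => ?_
      rw [sum_inner]
      refine Finset.sum_congr rfl fun j _ => ?_
      rw [real_inner_smul_left]; ring
    exact (hPt.mul_right_eq_zero).1 ((hPu.mul_left_eq_zero).1 h7)
  have h9 := congrFun (congrFun (h6 (sff f x i j)) i) j
  exact inner_self_eq_zero.1 h9

private lemma FL_add {n N : ℕ} (f : EE n → EE N) (x : EE n) (v w : EE N) :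
    nrm f x (v + w) = nrm f x v + nrm f x w := by
  unfold nrm
  simp only [inner_add_left, mul_add, add_smul, Finset.sum_add_distrib]
  abel

private lemma FL_smul {n N : ℕ} (f : EE n → EE N) (x : EE n) (c : ℝ) (v : EE N) :
    nrm f x (c • v) = c • nrm f x v := by
  unfold nrm
  simp only [real_inner_smul_left, smul_sub, Finset.smul_sum, smul_smul]
  congr 1
  refine Finset.sum_congr rfl fun k _ => Finset.sum_congr rfl fun l _ => ?_
  congr 1; ring

private noncomputable def FL_lin {n N : ℕ} (f : EE n → EE N) (x : EE n) : EE N →ₗ[ℝ] EE N where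
  toFun := nrm f x
  map_add' := FL_add f x
  map_smul' := FL_smul f x

private lemma FL_basis {n : ℕ} (ξ : EE n) : ξ = ∑ a, ξ a • (ee a : EE n) := by
  have h := (EuclideanSpace.basisFun (Fin n) ℝ).sum_repr ξ
  simpa [ee] using h.symm

/-- the derivative in a general direction lies in the span -/
private lemma FL_mem {n N : ℕ} (f : EE n → EE N) (x ξ : EE n) :
    fderiv ℝ f x ξ ∈ Submodule.span ℝ (range fun i => dv1 f x i) := by
  rw [FL_basis ξ, map_sum]
  refine Submodule.sum_mem _ fun a _ => ?_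
  rw [map_smul]
  exact Submodule.smul_mem _ _ (Submodule.subset_span ⟨a, rfl⟩)

/-- local statement: on a ball in the domain of a flat immersion the tangent spaces agree -/
private lemma FL_ball (hFR : StFR) (hGW : StGW) {n N : ℕ} (f : EE n → EE N) (y₀ : EE n) (r : ℝ)
    (hf : ContDiffOn ℝ ∞ f (Metric.ball y₀ r))
    (hLI : ∀ y ∈ Metric.ball y₀ r, LI f y) (h0 : ∀ y ∈ Metric.ball y₀ r, nsq f y = 0)
    (hgi : ∀ k l : Fin n, ContinuousOn (fun y => (gram f y)⁻¹ k l) (Metric.ball y₀ r))
    (y₁ : EE n) (hy₁ : y₁ ∈ Metric.ball y₀ r) :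
    Submodule.span ℝ (range fun i => dv1 f y₁ i) = Submodule.span ℝ (range fun i => dv1 f y₀ i) := by
  set ξ : EE n := y₁ - y₀ with hξ
  have hr : 0 < r := lt_of_le_of_lt dist_nonneg hy₁
  have hξr : ‖ξ‖ < r := by rw [hξ, ← dist_eq_norm]; exact hy₁
  have hseg : ∀ s ∈ Icc (0:ℝ) 1, y₀ + s • ξ ∈ Metric.ball y₀ r := by
    intro s hs
    rw [Metric.mem_ball, dist_eq_norm, add_sub_cancel_left, norm_smul, Real.norm_of_nonneg hs.1]
    calc s * ‖ξ‖ ≤ 1 * ‖ξ‖ := mul_le_mul_of_nonneg_right hs.2 (norm_nonneg _)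
      _ < r := by rw [one_mul]; exact hξr
  have hcs : Continuous (fun s : ℝ => y₀ + s • ξ) := by fun_prop
  -- first derivatives
  have hfd : ContDiffOn ℝ ∞ (fderiv ℝ f) (Metric.ball y₀ r) :=
    hf.fderiv_of_isOpen Metric.isOpen_ball (by simp)
  have hg : ∀ i : Fin n, ContDiffOn ℝ ∞ (fun y => fderiv ℝ f y (ee i)) (Metric.ball y₀ r) := fun i =>
    hfd.clm_apply contDiffOn_const
  have hgd : ∀ i : Fin n, ContDiffOn ℝ ∞ (fderiv ℝ (fun y => fderiv ℝ f y (ee i)))
      (Metric.ball y₀ r) := fun i => (hg i).fderiv_of_isOpen Metric.isOpen_ball (by simp)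
  have hgc : ∀ i : Fin n, ContinuousOn (fun s : ℝ => dv1 f (y₀ + s • ξ) i) (Icc 0 1) := by
    intro i
    exact (hg i).continuousOn.comp hcs.continuousOn hseg
  set C : Fin n → Fin n → ℝ → ℝ := fun i l s => ∑ k, (gram f (y₀ + s • ξ))⁻¹ k l *
    inner ℝ (fderiv ℝ (fun y => fderiv ℝ f y (ee i)) (y₀ + s • ξ) ξ) (dv1 f (y₀ + s • ξ) k) with hC
  have hCc : ∀ i l, ContinuousOn (C i l) (Icc 0 1) := by
    intro i l
    refine continuousOn_finset_sum _ fun k _ => ?_
    refine ContinuousOn.mul ((hgi k l).comp hcs.continuousOn hseg) ?_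
    refine ContinuousOn.inner ?_ (hgc k)
    exact ((hgd i).continuousOn.comp hcs.continuousOn hseg).clm_apply continuousOn_const
  obtain ⟨B, hB⟩ : ∃ B : ℝ, ∀ i l, ∀ s ∈ Icc (0:ℝ) 1, |C i l s| ≤ B := by
    have hsumc : ContinuousOn (fun s => ∑ i, ∑ l, |C i l s|) (Icc 0 1) :=
      continuousOn_finset_sum _ fun i _ => continuousOn_finset_sum _ fun l _ => (hCc i l).abs
    obtain ⟨B, hB⟩ := isCompact_Icc.exists_bound_of_continuousOn hsumc
    refine ⟨B, fun i l s hs => ?_⟩
    have h1 := hB s hs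
    rw [Real.norm_eq_abs] at h1
    refine le_trans ?_ ((le_abs_self _).trans h1)
    calc |C i l s| ≤ ∑ l, |C i l s| :=
          Finset.single_le_sum (f := fun l => |C i l s|) (fun l _ => abs_nonneg _) (Finset.mem_univ l)
      _ ≤ ∑ i, ∑ l, |C i l s| :=
          Finset.single_le_sum (f := fun i => ∑ l, |C i l s|)
            (fun i _ => Finset.sum_nonneg fun l _ => abs_nonneg _) (Finset.mem_univ i)
  have hder : ∀ i, ∀ s ∈ Ioo (0:ℝ) 1, HasDerivAt (fun s : ℝ => dv1 f (y₀ + s • ξ) i)
      (∑ l, C i l s • dv1 f (y₀ + s • ξ) l) s := by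
    intro i s hs
    have hsm := hseg s ⟨hs.1.le, hs.2.le⟩
    have hd : DifferentiableAt ℝ (fun y => fderiv ℝ f y (ee i)) (y₀ + s • ξ) :=
      ((hg i).contDiffAt (Metric.isOpen_ball.mem_nhds hsm)).differentiableAt (by simp)
    have h1 : HasDerivAt (fun s : ℝ => y₀ + s • ξ) ξ s := by
      have := ((hasDerivAt_id s).smul_const ξ).const_add y₀
      simpa using this
    have h2 := hd.hasFDerivAt.comp_hasDerivAt s h1
    have h3 : nrm f (y₀ + s • ξ) (fderiv ℝ (fun y => fderiv ℝ f y (ee i)) (y₀ + s • ξ) ξ) = 0 := by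
      have h4 : fderiv ℝ (fun y => fderiv ℝ f y (ee i)) (y₀ + s • ξ) ξ
          = ∑ a, ξ a • dv2 f (y₀ + s • ξ) a i := by
        conv_lhs => rw [FL_basis ξ, map_sum]
        refine Finset.sum_congr rfl fun a _ => ?_
        rw [map_smul, ← FL_basis ξ]
        rfl
      rw [h4]
      show FL_lin f (y₀ + s • ξ) (∑ a, ξ a • dv2 f (y₀ + s • ξ) a i) = 0
      rw [map_sum]
      refine Finset.sum_eq_zero fun a _ => ?_
      rw [map_smul]
      have h5 : FL_lin f (y₀ + s • ξ) (dv2 f (y₀ + s • ξ) a i) = 0 :=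
        FL_sff hFR f (y₀ + s • ξ) (hLI _ hsm) (h0 _ hsm) a i
      rw [h5, smul_zero]
    have h6 : ∑ l, C i l s • dv1 f (y₀ + s • ξ) l
        = fderiv ℝ (fun y => fderiv ℝ f y (ee i)) (y₀ + s • ξ) ξ := by
      have h7 := sub_eq_zero.1 h3
      rw [h7, Finset.sum_comm]
      refine Finset.sum_congr rfl fun l _ => ?_
      rw [hC, Finset.sum_smul]
    rw [h6]
    exact h2
  have key := hGW N n 0 1 (fun i s => dv1 f (y₀ + s • ξ) i) C B zero_le_one hgc hder
    (fun i j s hs => hB i j s ⟨hs.1.le, hs.2.le⟩)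
  have e0 : y₀ + (0:ℝ) • ξ = y₀ := by simp
  have e1 : y₀ + (1:ℝ) • ξ = y₁ := by rw [hξ, one_smul]; abel
  rw [e0, e1] at key
  have horth : ∀ (y : EE n) (v : EE N), v ∈ (Submodule.span ℝ (range fun i => dv1 f y i))ᗮ ↔
      ∀ i, (inner ℝ (dv1 f y i) v : ℝ) = 0 := by
    intro y v
    rw [Submodule.mem_orthogonal]
    constructor
    · intro h i
      exact h _ (Submodule.subset_span ⟨i, rfl⟩)
    · intro h w hw
      induction hw using Submodule.span_induction with
      | mem w hw => obtain ⟨i, rfl⟩ := hw; exact h i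
      | zero => exact inner_zero_left _
      | add a b _ _ ha hb => rw [inner_add_left, ha, hb, add_zero]
      | smul c a _ ha => rw [real_inner_smul_left, ha, mul_zero]
  have heq : (Submodule.span ℝ (range fun i => dv1 f y₁ i))ᗮ = (Submodule.span ℝ (range fun i => dv1 f y₀ i))ᗮ := by
    ext v
    rw [horth, horth]
    exact (key v).symm
  rw [← Submodule.orthogonal_orthogonal (Submodule.span ℝ (range fun i => dv1 f y₁ i)), heq,
    Submodule.orthogonal_orthogonal]

theorem hFL (hFR : StFR) (hGW : StGW) (hPO : StPO) (hI2 : StI2) (hI3 : StI3) (hSM : StSM) : StFL := by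
  intro n N hn hnN M _ _ _ _ F hF hA
  have hH : ∀ (p : M) (t : ℝ), t < 0 → HH (n := n) F p t = 0 := by
    intro p t ht
    obtain ⟨-, -, -, -, h5, -⟩ := hPO n N hn M F hF p t ht
    rw [hA p t ht, mul_zero] at h5
    exact norm_eq_zero.1 (pow_eq_zero_iff (two_ne_zero)|>.1 (le_antisymm h5 (sq_nonneg _)))
  -- constancy in time
  have hconst : ∀ (p : M) (t : ℝ), t < 0 → F p t = F p (-1) := by
    intro p t ht
    have hd : ∀ s ∈ Iio (0:ℝ), HasDerivAt (fun τ => F p τ) 0 s := fun s hs => by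
      have := hF.flow p s hs
      rwa [hH p s hs] at this
    exact isOpen_Iio.is_const_of_deriv_eq_zero (isPreconnected_Iio)
      (fun s hs => (hd s hs).differentiableAt.differentiableWithinAt) (fun s hs => (hd s hs).deriv)
      ht (by norm_num : (-1:ℝ) ∈ Iio (0:ℝ))
  have ht1 : (-1:ℝ) < 0 := by norm_num
  -- local statement
  have hloc : ∀ p₀ : M, ∀ᶠ q in 𝓝 p₀, TS (n := n) F q (-1) = TS (n := n) F p₀ (-1) ∧
      ∀ v ∈ (TS (n := n) F p₀ (-1))ᗮ, (inner ℝ (F q (-1)) v : ℝ) = inner ℝ (F p₀ (-1)) v := by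
    intro p₀
    set c := chartAt (EE n) p₀ with hc
    have hp₀ : p₀ ∈ c.source := mem_chart_source (EE n) p₀
    have hy₀ : c p₀ ∈ c.target := c.map_source hp₀
    obtain ⟨r, hr, hball⟩ := Metric.isOpen_iff.1 c.open_target (c p₀) hy₀
    set f : EE n → EE N := loc (n := n) F p₀ (-1) with hf
    set ff : EE n × ℝ → EE N := fun z => F (c.symm z.1) z.2 with hff
    have hI2' : ContDiffOn ℝ ∞ ff (c.target ×ˢ Iio 0) := hI2 n N M F hF p₀
    have hfat : ∀ y ∈ c.target, ContDiffAt ℝ ∞ ff (y, -1) := fun y hy =>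
      hI2'.contDiffAt ((c.open_target.prod isOpen_Iio).mem_nhds ⟨hy, ht1⟩)
    have hI3' : ∀ y ∈ c.target, LI f y ∧ nsq f y = 0 ∧
        TS (n := n) F (c.symm y) (-1) = Submodule.span ℝ (range fun i => dv1 f y i) := by
      intro y hy
      have hs : c.symm y ∈ c.source := c.map_target hy
      obtain ⟨a1, -, a3, -, a5⟩ := hI3 n N M F hF p₀ (c.symm y) (-1) ht1 hs
      have hcy : c (c.symm y) = y := c.right_inv hy
      rw [← hc, hcy] at a1 a3 a5
      refine ⟨a1, ?_, a5⟩
      rw [← a3]; exact hA _ _ ht1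
    have hfC : ContDiffOn ℝ ∞ f (Metric.ball (c p₀) r) := by
      have h1 : ContDiffOn ℝ ∞ (fun y : EE n => ff (y, -1)) c.target := by
        refine hI2'.comp (contDiff_id.prodMk contDiff_const).contDiffOn ?_
        intro y hy
        exact ⟨hy, ht1⟩
      exact h1.mono hball
    have hgi : ∀ k l : Fin n, ContinuousOn (fun y => (gram f y)⁻¹ k l) (Metric.ball (c p₀) r) := by
      intro k l y hy
      have hSM' := hSM n N ff (y, -1) (hfat y (hball hy)) (hI3' y (hball hy)).1
      have h1 := (hSM'.2.2.2.2.2.1 k l).continuousAt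
      have h2 : ContinuousAt (fun y' : EE n => (y', (-1:ℝ))) y := by fun_prop
      have h3 : ContinuousAt (fun y' : EE n => (gram (fun y'' => ff (y'', -1)) y')⁻¹ k l) y :=
        ContinuousAt.comp (g := fun z : EE n × ℝ => (gram (fun y => ff (y, z.2)) z.1)⁻¹ k l)
          (f := fun y' : EE n => (y', (-1:ℝ))) h1 h2
      exact h3.continuousWithinAt
    have hspan := FL_ball hFR hGW f (c p₀) r hfC (fun y hy => (hI3' y (hball hy)).1)
      (fun y hy => (hI3' y (hball hy)).2.1) hgi
    have hTS0 : TS (n := n) F p₀ (-1) = Submodule.span ℝ (range fun i => dv1 f (c p₀) i) := rfl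
    have hO : ∀ᶠ q in 𝓝 p₀, q ∈ c.source ∧ c q ∈ Metric.ball (c p₀) r := by
      exact Filter.Eventually.and (c.open_source.mem_nhds hp₀)
        ((c.continuousAt hp₀).preimage_mem_nhds (Metric.ball_mem_nhds _ hr))
    filter_upwards [hO] with q hq
    have hqs : c.symm (c q) = q := c.left_inv hq.1
    constructor
    · have h1 := (hI3' (c q) (hball hq.2)).2.2
      rw [hqs] at h1
      rw [h1, hTS0]
      exact hspan (c q) hq.2
    · intro v hv
      have hfq : ∀ q' : M, q' ∈ c.source → F q' (-1) = f (c q') := by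
        intro q' hq'
        show F q' (-1) = F (c.symm (c q')) (-1)
        rw [c.left_inv hq']
      rw [hfq q hq.1, hfq p₀ hp₀]
      have hdiff : ∀ y ∈ Metric.ball (c p₀) r, DifferentiableAt ℝ f y := fun y hy =>
        (hfC.contDiffAt (Metric.isOpen_ball.mem_nhds hy)).differentiableAt (by simp)
      refine Metric.isOpen_ball.is_const_of_fderiv_eq_zero (𝕜 := ℝ)
        (f := fun y => (inner ℝ (f y) v : ℝ)) (convex_ball _ _).isPreconnected ?_ ?_ hq.2
        (Metric.mem_ball_self hr)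
      · intro y hy
        exact ((hdiff y hy).inner ℝ (differentiableAt_const v)).differentiableWithinAt
      · intro y hy
        ext ξ
        rw [fderiv_inner_apply ℝ (hdiff y hy) (differentiableAt_const v)]
        have h1 : fderiv ℝ f y ξ ∈ TS (n := n) F p₀ (-1) := by
          rw [hTS0, ← hspan y hy]
          exact FL_mem f y ξ
        have h2 := (Submodule.mem_orthogonal _ _).1 hv _ h1
        simp [h2]
  obtain ⟨p₁⟩ : Nonempty M := inferInstance
  have hTS : ∀ p, TS (n := n) F p (-1) = TS (n := n) F p₁ (-1) := by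
    have hl : IsLocallyConstant (fun p : M => TS (n := n) F p (-1)) :=
      (IsLocallyConstant.iff_eventually_eq _).2 fun p => (hloc p).mono fun q hq => hq.1
    intro p
    exact hl.apply_eq_of_preconnectedSpace p p₁
  set V : Submodule ℝ (EE N) := TS (n := n) F p₁ (-1) with hV
  have hFV : ∀ p, F p (-1) - F p₁ (-1) ∈ V := by
    intro p
    rw [← Submodule.orthogonal_orthogonal V, Submodule.mem_orthogonal]
    intro v hv
    have hl : IsLocallyConstant (fun p : M => (inner ℝ (F p (-1)) v : ℝ)) :=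
      (IsLocallyConstant.iff_eventually_eq _).2 fun p => (hloc p).mono fun q hq =>
        hq.2 v (by rw [hTS p]; exact hv)
    have h1 := hl.apply_eq_of_preconnectedSpace p p₁
    rw [inner_sub_right, real_inner_comm, real_inner_comm (F p₁ (-1)) v]
    have h2 : (inner ℝ (F p (-1)) v : ℝ) = inner ℝ (F p₁ (-1)) v := h1
    rw [h2, sub_self]
  have hfinV : Module.finrank ℝ V = n := by
    have h1 := finrank_span_eq_card (hF.imm p₁ (-1) ht1)
    rw [Fintype.card_fin] at h1
    exact h1
  have hVtop : V ≠ ⊤ := by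
    intro h
    rw [h, finrank_top, finrank_euclideanSpace, Fintype.card_fin] at hfinV
    omega
  obtain ⟨w, hw⟩ : ∃ w : EE N, w ∉ V := by
    by_contra hcon
    push Not at hcon
    exact hVtop (Submodule.eq_top_iff'.2 hcon)
  have hw0 : w ≠ 0 := fun h => hw (h ▸ V.zero_mem)
  have hdis : Disjoint V (Submodule.span ℝ {w}) := (Submodule.disjoint_span_singleton' hw0).2 hw
  refine ⟨AffineSubspace.mk' (F p₁ (-1)) (V ⊔ Submodule.span ℝ {w}), ?_, ?_⟩
  · rw [AffineSubspace.direction_mk']
    have h1 := Submodule.finrank_sup_add_finrank_inf_eq V (Submodule.span ℝ {w})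
    rw [hdis.eq_bot, finrank_bot, hfinV, finrank_span_singleton hw0] at h1
    omega
  · intro p t ht
    rw [AffineSubspace.mem_mk', hconst p t ht, vsub_eq_sub]
    exact Submodule.mem_sup_left (hFV p)

end Helper84.PI
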