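import Pool.Agent.Helper35.PI.St2

set_option autoImplicit false

namespace Helper84.PI

open Helper35.PI
open scoped ContDiff Manifold Topology ENNReal BigOperators
open MeasureTheory Set Filter

private lemma G6_inner (hNR : StNR) {n N : ℕ} (f : EE n → EE N) (x : EE n) (hLI : LI f x) (v w : EE N) :
    (inner ℝ (nrm f x v) (nrm f x w) : ℝ) = inner ℝ v w
      - ∑ p, ∑ q, (gram f x)⁻¹ p q * (inner ℝ w (dv1 f x p) * inner ℝ v (dv1 f x q)) := by
  obtain ⟨h1, -, -, h4, -, -, h7, -⟩ := hNR n N f x hLI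
  have hidem : nrm f x (nrm f x w) = nrm f x w := h4 _ (fun i => h1 w i)
  rw [h7 v (nrm f x w), hidem]
  unfold nrm
  rw [inner_sub_right, inner_sum]
  congr 1
  refine Finset.sum_congr rfl fun p _ => ?_
  rw [inner_sum]
  refine Finset.sum_congr rfl fun q _ => ?_
  rw [real_inner_smul_right]
  ring

/-- `⟨u_ij, u_p⟩` -/
private noncomputable def G6_a {n N : ℕ} (u : EE n × ℝ → EE N) (i j p : Fin n) (z : EE n × ℝ) : ℝ :=
  inner ℝ (jgg u z i j) (jg u z p)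

private lemma G6_a_jet (hJB : StJB) (hG3 : StG3) {n N : ℕ} (x₀ : EE N) (L : EE n →ₗᵢ[ℝ] EE N)
    (u : EE n × ℝ → EE N) (t₀ : ℝ) (hu : GraphSol x₀ L u t₀) (i j p : Fin n) :
    ContDiffAt ℝ 4 (G6_a u i j p) (0, t₀) ∧ G6_a u i j p (0, t₀) = 0 ∧
    ∀ m, jg (G6_a u i j p) (0, t₀) m = inner ℝ (jgg u (0, t₀) i j) (jgg u (0, t₀) m p) := by
  obtain ⟨h1, h2⟩ := hG3 n N x₀ L u t₀ hu
  have c2 : ContDiffAt ℝ 4 (fun z => jgg u z i j) (0, t₀) := h2 i j
  have c1 : ContDiffAt ℝ 4 (fun z => jg u z p) (0, t₀) := (h1 p).1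
  refine ⟨c2.inner ℝ c1, ?_, fun m => ?_⟩
  · unfold G6_a
    rw [hu.du0 p, inner_zero_right]
  · have h := ((hJB n N (0, t₀)).2 (fun z => jgg u z i j) (fun z => jg u z p)
      (c2.of_le (by norm_num)) (c1.of_le (by norm_num))).1 m
    show jg (fun z => (inner ℝ (jgg u z i j) (jg u z p) : ℝ)) (0, t₀) m = _
    rw [h, hu.du0 p, inner_zero_right, zero_add]
    rfl

/-- jets of `g * (a * b)` where `a = b = 0`, `∂ g = 0` at the point -/
private lemma G6_prod (hJB : StJB) {n : ℕ} (z : EE n × ℝ) (g a b : EE n × ℝ → ℝ)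
    (hg : ContDiffAt ℝ 4 g z) (ha : ContDiffAt ℝ 4 a z) (hb : ContDiffAt ℝ 4 b z)
    (a0 : a z = 0) (b0 : b z = 0) (g1 : ∀ m, jg g z m = 0) :
    ContDiffAt ℝ 4 (fun z => g z * (a z * b z)) z ∧
    (∀ m, jg (fun z => g z * (a z * b z)) z m = 0) ∧
    jh (fun z => g z * (a z * b z)) z = g z * (-2 * ∑ m, jg a z m * jg b z m) := by
  have cab : ContDiffAt ℝ 4 (fun z => a z * b z) z := ha.mul hb
  have h1 := (hJB n 0 z).1 a b (ha.of_le (by norm_num)) (hb.of_le (by norm_num))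
  have h2 := (hJB n 0 z).1 g (fun z => a z * b z) (hg.of_le (by norm_num)) (cab.of_le (by norm_num))
  refine ⟨hg.mul cab, fun m => ?_, ?_⟩
  · rw [h2.1 m, h1.1 m, a0, b0]; ring
  · rw [h2.2, h1.2, a0, b0]
    have : ∑ k, jg g z k * jg (fun z => a z * b z) z k = 0 :=
      Finset.sum_eq_zero fun k _ => by rw [g1 k, zero_mul]
    rw [this]; ring

theorem hG6 (hNR : StNR) (hJA : StJA) (hJB : StJB) (hG0 : StG0) (hG1 : StG1) (hG2 : StG2)
    (hG3 : StG3) (hG4 : StG4) : StG6 := by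
  intro n N x₀ L u t₀ hu A T hA hT i j k l
  have hG0' := hG0 n N x₀ L u t₀ hu
  obtain ⟨hSy, hS3, -, -⟩ := hG1 n N x₀ L u t₀ hu
  have hG2' := hG2 n N x₀ L u t₀ hu
  obtain ⟨hG3a, hG3b⟩ := hG3 n N x₀ L u t₀ hu
  have hG4' := hG4 n N x₀ L u t₀ hu
  have cGI : ∀ p q, ContDiffAt ℝ 4 (GIf x₀ L u p q) (0, t₀) := fun p q =>
    by exact_mod_cast (contDiffAt_infty.1 (hG0' p q).1 4)
  -- the product terms
  have hP : ∀ p q, _ := fun p q =>
    G6_prod hJB (0, t₀) (GIf x₀ L u p q) (G6_a u k l p) (G6_a u i j q) (cGI p q)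
      (G6_a_jet hJB hG3 x₀ L u t₀ hu k l p).1 (G6_a_jet hJB hG3 x₀ L u t₀ hu i j q).1
      (G6_a_jet hJB hG3 x₀ L u t₀ hu k l p).2.1 (G6_a_jet hJB hG3 x₀ L u t₀ hu i j q).2.1
      (hG0' p q).2.2.1
  set P : Fin n → Fin n → EE n × ℝ → ℝ := fun p q z =>
    GIf x₀ L u p q z * (G6_a u k l p z * G6_a u i j q z) with hPdef
  have cP : ∀ p q, ContDiffAt ℝ 4 (P p q) (0, t₀) := fun p q => (hP p q).1
  have cPs : ∀ p, ContDiffAt ℝ 4 (fun z => ∑ q, P p q z) (0, t₀) := fun p =>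
    ContDiffAt.sum fun q _ => cP p q
  have cPss : ContDiffAt ℝ 4 (fun z => ∑ p, ∑ q, P p q z) (0, t₀) :=
    ContDiffAt.sum fun p _ => cPs p
  have c1 : ContDiffAt ℝ 4 (fun z => jgg u z i j) (0, t₀) := hG3b i j
  have c2 : ContDiffAt ℝ 4 (fun z => jgg u z k l) (0, t₀) := hG3b k l
  have cI : ContDiffAt ℝ 4 (fun z => (inner ℝ (jgg u z i j) (jgg u z k l) : ℝ)) (0, t₀) :=
    c1.inner ℝ c2
  set F : EE n × ℝ → ℝ := fun z => (inner ℝ (jgg u z i j) (jgg u z k l) : ℝ) - ∑ p, ∑ q, P p q z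
    with hF
  have hev : Rf x₀ L u i j k l =ᶠ[𝓝 ((0 : EE n), t₀)] F := by
    filter_upwards [hG2'] with z hz
    obtain ⟨d1, d2, -, hperp, hLI⟩ := hz
    show (inner ℝ (nrm (grf x₀ L u z.2) z.1 (dv2 (grf x₀ L u z.2) z.1 i j))
      (nrm (grf x₀ L u z.2) z.1 (dv2 (grf x₀ L u z.2) z.1 k l)) : ℝ) = _
    rw [G6_inner hNR _ _ hLI, d2 i j, d2 k l, hF]
    simp only [hPdef]
    congr 1
    refine Finset.sum_congr rfl fun p _ => Finset.sum_congr rfl fun q _ => ?_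
    rw [d1 p, d1 q, inner_add_right, inner_add_right, (hperp k l (ee p)).2, (hperp i j (ee q)).2,
      zero_add, zero_add]
    rfl
  have hJAr := hJA n ℝ (0, t₀)
  obtain ⟨e1, -, -, e4⟩ := hJAr.1 _ _ hev
  have hsub := hJAr.2.2.1 (fun z => (inner ℝ (jgg u z i j) (jgg u z k l) : ℝ))
    (fun z => ∑ p, ∑ q, P p q z) (cI.of_le (by norm_num)) (cPss.of_le (by norm_num))
  have hsum1 := hJAr.2.2.2.2 n (fun p z => ∑ q, P p q z) (fun p => (cPs p).of_le (by norm_num))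
  have hsum2 := fun p => hJAr.2.2.2.2 n (fun q z => P p q z) (fun q => (cP p q).of_le (by norm_num))
  have hin := (hJB n N (0, t₀)).2 (fun z => jgg u z i j) (fun z => jgg u z k l)
    (c1.of_le (by norm_num)) (c2.of_le (by norm_num))
  have jP : ∀ m, jg (fun z => ∑ p, ∑ q, P p q z) (0, t₀) m = 0 := by
    intro m
    rw [hsum1.1 m]
    refine Finset.sum_eq_zero fun p _ => ?_
    show jg (fun z => ∑ q, P p q z) (0, t₀) m = 0
    rw [(hsum2 p).1 m]
    exact Finset.sum_eq_zero fun q _ => (hP p q).2.1 m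
  have hhP : jh (fun z => ∑ p, ∑ q, P p q z) (0, t₀)
      = -2 * (∑ a, ∑ b, inner ℝ (A i j) (A a b) * inner ℝ (A k l) (A a b)) := by
    rw [hsum1.2]
    have : ∀ p, jh (fun z => ∑ q, P p q z) (0, t₀)
        = -2 * ∑ m, inner ℝ (A k l) (A m p) * inner ℝ (A i j) (A m p) := by
      intro p
      rw [(hsum2 p).2]
      rw [Finset.sum_eq_single p]
      · show jh (fun z => GIf x₀ L u p p z * (G6_a u k l p z * G6_a u i j p z)) (0, t₀) = _
        rw [(hP p p).2.2, (hG0' p p).2.1, if_pos rfl, one_mul]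
        congr 1
        refine Finset.sum_congr rfl fun m _ => ?_
        rw [(G6_a_jet hJB hG3 x₀ L u t₀ hu k l p).2.2 m, (G6_a_jet hJB hG3 x₀ L u t₀ hu i j p).2.2 m, hA]
      · intro q _ hq
        show jh (fun z => GIf x₀ L u p q z * (G6_a u k l p z * G6_a u i j q z)) (0, t₀) = _
        rw [(hP p q).2.2, (hG0' p q).2.1, if_neg (Ne.symm hq), zero_mul]
      · intro h; exact absurd (Finset.mem_univ p) h
    calc ∑ p, jh (fun z => ∑ q, P p q z) (0, t₀)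
        = ∑ p, -2 * ∑ m, inner ℝ (A k l) (A m p) * inner ℝ (A i j) (A m p) :=
          Finset.sum_congr rfl fun p _ => this p
      _ = -2 * ∑ p, ∑ m, inner ℝ (A k l) (A m p) * inner ℝ (A i j) (A m p) := by
          rw [Finset.mul_sum]
      _ = _ := by
          rw [Finset.sum_comm]
          congr 1
          refine Finset.sum_congr rfl fun a _ => Finset.sum_congr rfl fun b _ => ?_
          ring
  have hT3 : ∀ m a b, jg (fun z => jgg u z a b) (0, t₀) m = T a b m := by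
    intro m a b
    have h1 : jg (fun z => jgg u z a b) (0, t₀) m = jggg u (0, t₀) m a b := rfl
    rw [h1, hS3.1 m a b, hS3.2 a m b, hT]
  refine ⟨(cI.sub cPss).congr_of_eventuallyEq hev, ?_, fun m => ?_, ?_⟩
  · rw [hev.eq_of_nhds, hF]
    have : ∑ p, ∑ q, P p q (0, t₀) = 0 := by
      refine Finset.sum_eq_zero fun p _ => Finset.sum_eq_zero fun q _ => ?_
      simp only [hPdef]
      rw [(G6_a_jet hJB hG3 x₀ L u t₀ hu k l p).2.1]; ring
    simp only [this, sub_zero, hA]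
  · rw [e1 m, hsub.2.2.1 m, jP m, hin.1 m, hT3 m i j, hT3 m k l, sub_zero, hA]
  · rw [e4, hsub.2.2.2, hhP, hin.2, hG4' i j, hG4' k l]
    have s1 : ∑ m, (inner ℝ (jg (fun z => jgg u z i j) (0, t₀) m) (jg (fun z => jgg u z k l) (0, t₀) m) : ℝ)
        = ∑ m, inner ℝ (T i j m) (T k l m) :=
      Finset.sum_congr rfl fun m _ => by rw [hT3 m i j, hT3 m k l]
    rw [s1, real_inner_smul_left, real_inner_smul_right, sum_inner, inner_sum]
    have s2 : ∑ a, (inner ℝ (∑ b, (inner ℝ (jgg u (0, t₀) a i) (jgg u (0, t₀) b j) : ℝ) • jgg u (0, t₀) a b)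
        (jgg u (0, t₀) k l) : ℝ)
        = ∑ a, ∑ b, inner ℝ (A a i) (A b j) * inner ℝ (A a b) (A k l) := by
      refine Finset.sum_congr rfl fun a _ => ?_
      rw [sum_inner]
      refine Finset.sum_congr rfl fun b _ => ?_
      rw [real_inner_smul_left, hA]
    have s3 : ∑ a, (inner ℝ (jgg u (0, t₀) i j)
        (∑ b, (inner ℝ (jgg u (0, t₀) a k) (jgg u (0, t₀) b l) : ℝ) • jgg u (0, t₀) a b) : ℝ)
        = ∑ a, ∑ b, inner ℝ (A a k) (A b l) * inner ℝ (A a b) (A i j) := by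
      refine Finset.sum_congr rfl fun a _ => ?_
      rw [inner_sum]
      refine Finset.sum_congr rfl fun b _ => ?_
      rw [real_inner_smul_right, hA, real_inner_comm (jgg u (0, t₀) a b) (jgg u (0, t₀) i j)]
    rw [s2, s3]
    ring

end Helper84.PI
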