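import Pool.Agent.Helper35.PI.St1

set_option autoImplicit false

namespace Helper84.PI

open Helper35.PI

/-- the closed inequality on the line `a + b = z` -/
private def Cl (κ z : ℝ) : Prop := ∀ a b : ℝ, 0 ≤ a → 0 < b → a + b = z →
  ∃ t : ℝ, 0 ≤ t ∧ t ≤ (1 + b / (κ - a)) / 2 ∧
    t ^ 2 * a ^ 2 / (2 * b) + (1 + 2 * (b / (κ - a)) - t) * a + 3 / 2 * b ≤ 1

private lemma RS_closed (κ z a0 : ℝ) (hz : 0 < z) (hzk : z ≤ κ) (h0 : 0 < a0)
    (h1 : ∀ a : ℝ, 0 ≤ a → a ≤ a0 → a < z → 0 ≤ 8 * a * (z - a) * (κ - a) ^ 2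
      - ((κ - a) + (z - a)) ^ 2 * a ^ 2 - 12 * (z - a) ^ 2 * (κ - a) * a
      + (8 - 12 * z) * (z - a) * (κ - a) ^ 2)
    (h2 : ∀ a : ℝ, a0 ≤ a → a < z → 4 * a ^ 2 - 3 * (κ + z) * a + 2 * z * κ ≤ 0)
    (h3 : ∀ a : ℝ, 0 ≤ a → a < z → 0 ≤ 2 * a ^ 2 - (1 + z) * a + (1 - z) * κ) : Cl κ z := by
  have _ := hz
  intro a b ha hb hab
  have hbz : b = z - a := by linarith
  have haz : a < z := by linarith
  have hc : 0 < κ - a := by linarith
  by_cases hcase : a ≤ a0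
  · refine ⟨(1 + b / (κ - a)) / 2, by positivity, le_rfl, ?_⟩
    have hP := h1 a ha hcase haz
    rw [← hbz] at hP
    have key : 1 - (((1 + b / (κ - a)) / 2) ^ 2 * a ^ 2 / (2 * b)
        + (1 + 2 * (b / (κ - a)) - (1 + b / (κ - a)) / 2) * a + 3 / 2 * b)
        = (8 * a * b * (κ - a) ^ 2 - ((κ - a) + b) ^ 2 * a ^ 2 - 12 * b ^ 2 * (κ - a) * a
      + (8 - 12 * (a + b)) * b * (κ - a) ^ 2) / (8 * b * (κ - a) ^ 2) := by
      field_simp
      ring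
    rw [hab] at key
    have h4 := div_nonneg hP (by positivity : (0:ℝ) ≤ 8 * b * (κ - a) ^ 2)
    linarith
  · push Not at hcase
    have hapos : 0 < a := h0.trans hcase
    refine ⟨b / a, by positivity, ?_, ?_⟩
    · have hQ := h2 a hcase.le haz
      rw [← sub_nonneg]
      have key : (1 + b / (κ - a)) / 2 - b / a = (a * ((κ - a) + b) - 2 * b * (κ - a)) / (2 * a * (κ - a)) := by
        field_simp
      rw [key]
      apply div_nonneg _ (by positivity)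
      rw [hbz]; nlinarith
    · have hR := h3 a ha haz
      have key : (b / a) ^ 2 * a ^ 2 / (2 * b) + (1 + 2 * (b / (κ - a)) - b / a) * a + 3 / 2 * b
          = (a + b) + 2 * a * b / (κ - a) := by
        field_simp
        ring
      rw [key, hab]
      have : 2 * a * b / (κ - a) ≤ 1 - z := by
        rw [div_le_iff₀ hc, hbz]; nlinarith
      linarith

private lemma RS_mono (l l2 a b M : ℝ) (hl : 0 ≤ l) (hll : l ≤ l2) (ha : 0 ≤ a) (hb : 0 < b)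
    (h : ∃ t : ℝ, 0 ≤ t ∧ t ≤ (1 + l2) / 2 ∧
      t ^ 2 * a ^ 2 / (2 * b) + (1 + 2 * l2 - t) * a + 3 / 2 * b ≤ M) :
    ∃ t : ℝ, 0 ≤ t ∧ t ≤ (1 + l) / 2 ∧
      t ^ 2 * a ^ 2 / (2 * b) + (1 + 2 * l - t) * a + 3 / 2 * b ≤ M := by
  obtain ⟨t, ht0, ht1, ht⟩ := h
  rcases le_total t ((1 + l) / 2) with h1 | h1
  · refine ⟨t, ht0, h1, le_trans ?_ ht⟩
    have : (1 + 2 * l - t) * a ≤ (1 + 2 * l2 - t) * a := mul_le_mul_of_nonneg_right (by linarith) ha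
    linarith
  · refine ⟨(1 + l) / 2, by linarith, le_rfl, le_trans ?_ ht⟩
    have e1 : (1 + 2 * l - (1 + l) / 2) * a ≤ (1 + 2 * l2 - t) * a := by
      apply mul_le_mul_of_nonneg_right _ ha
      linarith
    have e2 : ((1 + l) / 2) ^ 2 * a ^ 2 / (2 * b) ≤ t ^ 2 * a ^ 2 / (2 * b) := by
      have : ((1 + l) / 2) ^ 2 ≤ t ^ 2 := pow_le_pow_left₀ (by linarith) h1 2
      gcongr
    linarith

/-- scaling -/
private lemma RS_scale (κ0 κ z ε s r l : ℝ) (hz : 0 < z) (hz1 : z ≤ 1) (hzk : z ≤ κ0) (hκ : κ0 ≤ κ)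
    (hcl : Cl κ0 z) (hε : 0 < ε) (hs : 0 ≤ s) (hr : 0 < r) (hsr : s + r ≤ z - ε) (hl : l = r / (κ - s)) :
    0 ≤ l ∧ l ≤ 1 ∧ ∃ t : ℝ, 0 ≤ t ∧ t ≤ (1 + l) / 2 ∧
      t ^ 2 * s ^ 2 / (2 * r) + (1 + 2 * l - t) * s + 3 / 2 * r ≤ 1 - ε := by
  have hks : 0 < κ - s := by linarith
  have hl0 : 0 ≤ l := by rw [hl]; positivity
  refine ⟨hl0, ?_, ?_⟩
  · rw [hl, div_le_one hks]; linarith
  have hsr0 : 0 < s + r := by linarith
  set lam : ℝ := z / (s + r) with hlam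
  have hlam1 : 1 ≤ lam := by rw [hlam, le_div_iff₀ hsr0]; linarith
  have hlam0 : 0 < lam := by linarith
  have hsum : lam * s + lam * r = z := by
    rw [hlam]; field_simp
  obtain ⟨t, ht0, ht1, ht⟩ := hcl (lam * s) (lam * r) (by positivity) (by positivity) hsum
  have hden : 0 < κ0 - lam * s := by
    have : 0 < lam * r := by positivity
    linarith
  have hll : l ≤ lam * r / (κ0 - lam * s) := by
    rw [hl, div_le_div_iff₀ hks hden]
    have h1 : κ0 ≤ lam * κ := by nlinarith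
    have h2 : r * κ0 ≤ r * (lam * κ) := mul_le_mul_of_nonneg_left h1 hr.le
    nlinarith
  apply RS_mono l (lam * r / (κ0 - lam * s)) s r (1 - ε) hl0 hll hs hr
  refine ⟨t, ht0, ht1, ?_⟩
  set l2 := lam * r / (κ0 - lam * s) with hl2
  have hhom : t ^ 2 * (lam * s) ^ 2 / (2 * (lam * r)) + (1 + 2 * l2 - t) * (lam * s) + 3 / 2 * (lam * r)
      = lam * (t ^ 2 * s ^ 2 / (2 * r) + (1 + 2 * l2 - t) * s + 3 / 2 * r) := by
    field_simp
  rw [hhom] at ht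
  have h5 : t ^ 2 * s ^ 2 / (2 * r) + (1 + 2 * l2 - t) * s + 3 / 2 * r ≤ 1 / lam := by
    rw [le_div_iff₀ hlam0]; linarith
  have h6 : 1 / lam = (s + r) / z := by rw [hlam]; field_simp
  have h7 : (s + r) / z ≤ 1 - ε := by
    rw [div_le_iff₀ hz]; nlinarith
  rw [h6] at h5
  linarith

private lemma RS_n2 : Cl (1/6) (1/6) := by
  apply RS_closed (1/6) (1/6) (1/8) (by norm_num) (by norm_num) (by norm_num)
  · intro a ha h1 _
    have h2 : (0:ℝ) ≤ (1/8) - a := by linarith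
    have h3 : (0:ℝ) ≤ (1024/9) * (a ^ 0 * ((1/8) - a) ^ 4) + (5120/27) * (a ^ 1 * ((1/8) - a) ^ 3) + (832/9) * (a ^ 2 * ((1/8) - a) ^ 2) + (160/9) * (a ^ 3 * ((1/8) - a) ^ 1) + (32/27) * (a ^ 4 * ((1/8) - a) ^ 0) := by positivity
    calc (0:ℝ) ≤ (1024/9) * (a ^ 0 * ((1/8) - a) ^ 4) + (5120/27) * (a ^ 1 * ((1/8) - a) ^ 3) + (832/9) * (a ^ 2 * ((1/8) - a) ^ 2) + (160/9) * (a ^ 3 * ((1/8) - a) ^ 1) + (32/27) * (a ^ 4 * ((1/8) - a) ^ 0) := h3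
      _ = _ := by ring
  · intro a h1 h2
    nlinarith [mul_nonneg (by linarith : (0:ℝ) ≤ a - (1/8)) (by linarith : (0:ℝ) ≤ (1/6) - a)]
  · intro a h1 h2
    nlinarith [mul_nonneg (by linarith : (0:ℝ) ≤ 1/6 - a) (by linarith : (0:ℝ) ≤ 5/12 - a)]

private lemma RS_n3 : Cl (4/13) (2/7) := by
  apply RS_closed (4/13) (2/7) (1/4) (by norm_num) (by norm_num) (by norm_num)
  · intro a ha h1 _
    have h2 : (0:ℝ) ≤ (1/4) - a := by linarith
    have h3 : (0:ℝ) ≤ (262144/8281) * (a ^ 0 * ((1/4) - a) ^ 4) + (348160/8281) * (a ^ 1 * ((1/4) - a) ^ 3) + (93376/8281) * (a ^ 2 * ((1/4) - a) ^ 2) + (1056/1183) * (a ^ 3 * ((1/4) - a) ^ 1) + (32/8281) * (a ^ 4 * ((1/4) - a) ^ 0) := by positivity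
    calc (0:ℝ) ≤ (262144/8281) * (a ^ 0 * ((1/4) - a) ^ 4) + (348160/8281) * (a ^ 1 * ((1/4) - a) ^ 3) + (93376/8281) * (a ^ 2 * ((1/4) - a) ^ 2) + (1056/1183) * (a ^ 3 * ((1/4) - a) ^ 1) + (32/8281) * (a ^ 4 * ((1/4) - a) ^ 0) := h3
      _ = _ := by ring
  · intro a h1 h2
    nlinarith [mul_nonneg (by linarith : (0:ℝ) ≤ a - (1/4)) (by linarith : (0:ℝ) ≤ (2/7) - a)]
  · intro a h1 h2
    nlinarith [sq_nonneg (a - (9/28))]

private lemma RS_n4 : Cl (3/7) (3/8) := by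
  apply RS_closed (3/7) (3/8) (1/4) (by norm_num) (by norm_num) (by norm_num)
  · intro a ha h1 _
    have h2 : (0:ℝ) ≤ (1/4) - a := by linarith
    have h3 : (0:ℝ) ≤ (432/7) * (a ^ 0 * ((1/4) - a) ^ 4) + (6012/49) * (a ^ 1 * ((1/4) - a) ^ 3) + (15783/196) * (a ^ 2 * ((1/4) - a) ^ 2) + (2111/98) * (a ^ 3 * ((1/4) - a) ^ 1) + (391/196) * (a ^ 4 * ((1/4) - a) ^ 0) := by positivity
    calc (0:ℝ) ≤ (432/7) * (a ^ 0 * ((1/4) - a) ^ 4) + (6012/49) * (a ^ 1 * ((1/4) - a) ^ 3) + (15783/196) * (a ^ 2 * ((1/4) - a) ^ 2) + (2111/98) * (a ^ 3 * ((1/4) - a) ^ 1) + (391/196) * (a ^ 4 * ((1/4) - a) ^ 0) := h3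
      _ = _ := by ring
  · intro a h1 h2
    nlinarith [mul_nonneg (by linarith : (0:ℝ) ≤ a - (1/4)) (by linarith : (0:ℝ) ≤ (3/8) - a)]
  · intro a h1 h2
    nlinarith [sq_nonneg (a - (11/32))]

private lemma RS_n5 : Cl (8/15) (4/9) := by
  apply RS_closed (8/15) (4/9) (1/4) (by norm_num) (by norm_num) (by norm_num)
  · intro a ha h1 _
    have h2 : (0:ℝ) ≤ (1/4) - a := by linarith
    have h3 : (0:ℝ) ≤ (524288/6075) * (a ^ 0 * ((1/4) - a) ^ 4) + (1212416/6075) * (a ^ 1 * ((1/4) - a) ^ 3) + (109312/675) * (a ^ 2 * ((1/4) - a) ^ 2) + (13472/243) * (a ^ 3 * ((1/4) - a) ^ 1) + (8224/1215) * (a ^ 4 * ((1/4) - a) ^ 0) := by positivity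
    calc (0:ℝ) ≤ (524288/6075) * (a ^ 0 * ((1/4) - a) ^ 4) + (1212416/6075) * (a ^ 1 * ((1/4) - a) ^ 3) + (109312/675) * (a ^ 2 * ((1/4) - a) ^ 2) + (13472/243) * (a ^ 3 * ((1/4) - a) ^ 1) + (8224/1215) * (a ^ 4 * ((1/4) - a) ^ 0) := h3
      _ = _ := by ring
  · intro a h1 h2
    nlinarith [mul_nonneg (by linarith : (0:ℝ) ≤ a - (1/4)) (by linarith : (0:ℝ) ≤ (4/9) - a)]
  · intro a h1 h2
    nlinarith [sq_nonneg (a - (13/36))]

private lemma RS_n6 : Cl (5/8) (1/2) := by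
  apply RS_closed (5/8) (1/2) (1/3) (by norm_num) (by norm_num) (by norm_num)
  · intro a ha h1 _
    have h2 : (0:ℝ) ≤ (1/3) - a := by linarith
    have h3 : (0:ℝ) ≤ (2025/64) * (a ^ 0 * ((1/3) - a) ^ 4) + (2025/32) * (a ^ 1 * ((1/3) - a) ^ 3) + (2655/64) * (a ^ 2 * ((1/3) - a) ^ 2) + (171/16) * (a ^ 3 * ((1/3) - a) ^ 1) + (27/32) * (a ^ 4 * ((1/3) - a) ^ 0) := by positivity
    calc (0:ℝ) ≤ (2025/64) * (a ^ 0 * ((1/3) - a) ^ 4) + (2025/32) * (a ^ 1 * ((1/3) - a) ^ 3) + (2655/64) * (a ^ 2 * ((1/3) - a) ^ 2) + (171/16) * (a ^ 3 * ((1/3) - a) ^ 1) + (27/32) * (a ^ 4 * ((1/3) - a) ^ 0) := h3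
      _ = _ := by ring
  · intro a h1 h2
    nlinarith [mul_nonneg (by linarith : (0:ℝ) ≤ a - (1/3)) (by linarith : (0:ℝ) ≤ (1/2) - a)]
  · intro a h1 h2
    nlinarith [sq_nonneg (a - (3/8))]

private lemma RS_n7 : Cl (12/17) (6/11) := by
  apply RS_closed (12/17) (6/11) (1/3) (by norm_num) (by norm_num) (by norm_num)
  · intro a ha h1 _
    have h2 : (0:ℝ) ≤ (1/3) - a := by linarith
    have h3 : (0:ℝ) ≤ (1119744/34969) * (a ^ 0 * ((1/3) - a) ^ 4) + (2410560/34969) * (a ^ 1 * ((1/3) - a) ^ 3) + (1754892/34969) * (a ^ 2 * ((1/3) - a) ^ 2) + (510240/34969) * (a ^ 3 * ((1/3) - a) ^ 1) + (46164/34969) * (a ^ 4 * ((1/3) - a) ^ 0) := by positivity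
    calc (0:ℝ) ≤ (1119744/34969) * (a ^ 0 * ((1/3) - a) ^ 4) + (2410560/34969) * (a ^ 1 * ((1/3) - a) ^ 3) + (1754892/34969) * (a ^ 2 * ((1/3) - a) ^ 2) + (510240/34969) * (a ^ 3 * ((1/3) - a) ^ 1) + (46164/34969) * (a ^ 4 * ((1/3) - a) ^ 0) := h3
      _ = _ := by ring
  · intro a h1 h2
    nlinarith [mul_nonneg (by linarith : (0:ℝ) ≤ a - (1/3)) (by linarith : (0:ℝ) ≤ (6/11) - a)]
  · intro a h1 h2
    nlinarith [sq_nonneg (a - (17/44))]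

private lemma RS_n8 : Cl (7/9) (7/12) := by
  apply RS_closed (7/9) (7/12) (1/3) (by norm_num) (by norm_num) (by norm_num)
  · intro a ha h1 _
    have h2 : (0:ℝ) ≤ (1/3) - a := by linarith
    have h3 : (0:ℝ) ≤ (343/12) * (a ^ 0 * ((1/3) - a) ^ 4) + (2303/36) * (a ^ 1 * ((1/3) - a) ^ 3) + (2345/48) * (a ^ 2 * ((1/3) - a) ^ 2) + (355/24) * (a ^ 3 * ((1/3) - a) ^ 1) + (191/144) * (a ^ 4 * ((1/3) - a) ^ 0) := by positivity
    calc (0:ℝ) ≤ (343/12) * (a ^ 0 * ((1/3) - a) ^ 4) + (2303/36) * (a ^ 1 * ((1/3) - a) ^ 3) + (2345/48) * (a ^ 2 * ((1/3) - a) ^ 2) + (355/24) * (a ^ 3 * ((1/3) - a) ^ 1) + (191/144) * (a ^ 4 * ((1/3) - a) ^ 0) := h3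
      _ = _ := by ring
  · intro a h1 h2
    nlinarith [mul_nonneg (by linarith : (0:ℝ) ≤ a - (1/3)) (by linarith : (0:ℝ) ≤ (7/12) - a)]
  · intro a h1 h2
    nlinarith [sq_nonneg (a - (19/48))]

private lemma RS_m9 : Cl (16/19) (3/5) := by
  apply RS_closed (16/19) (3/5) (2/5) (by norm_num) (by norm_num) (by norm_num)
  · intro a ha h1 _
    have h2 : (0:ℝ) ≤ (2/5) - a := by linarith
    have h3 : (0:ℝ) ≤ (4800/361) * (a ^ 0 * ((2/5) - a) ^ 4) + (10120/361) * (a ^ 1 * ((2/5) - a) ^ 3) + (28231/1444) * (a ^ 2 * ((2/5) - a) ^ 2) + (3631/722) * (a ^ 3 * ((2/5) - a) ^ 1) + (311/1444) * (a ^ 4 * ((2/5) - a) ^ 0) := by positivity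
    calc (0:ℝ) ≤ (4800/361) * (a ^ 0 * ((2/5) - a) ^ 4) + (10120/361) * (a ^ 1 * ((2/5) - a) ^ 3) + (28231/1444) * (a ^ 2 * ((2/5) - a) ^ 2) + (3631/722) * (a ^ 3 * ((2/5) - a) ^ 1) + (311/1444) * (a ^ 4 * ((2/5) - a) ^ 0) := h3
      _ = _ := by ring
  · intro a h1 h2
    nlinarith [mul_nonneg (by linarith : (0:ℝ) ≤ a - (2/5)) (by linarith : (0:ℝ) ≤ (3/5) - a)]
  · intro a h1 h2
    nlinarith [sq_nonneg (a - (2/5))]

private lemma RS_m13 : Cl (24/23) (2/3) := by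
  apply RS_closed (24/23) (2/3) (2/5) (by norm_num) (by norm_num) (by norm_num)
  · intro a ha h1 _
    have h2 : (0:ℝ) ≤ (2/5) - a := by linarith
    have h3 : (0:ℝ) ≤ (2000/529) * (a ^ 1 * ((2/5) - a) ^ 3) + (32075/4761) * (a ^ 2 * ((2/5) - a) ^ 2) + (14290/4761) * (a ^ 3 * ((2/5) - a) ^ 1) + (215/4761) * (a ^ 4 * ((2/5) - a) ^ 0) := by positivity
    calc (0:ℝ) ≤ (2000/529) * (a ^ 1 * ((2/5) - a) ^ 3) + (32075/4761) * (a ^ 2 * ((2/5) - a) ^ 2) + (14290/4761) * (a ^ 3 * ((2/5) - a) ^ 1) + (215/4761) * (a ^ 4 * ((2/5) - a) ^ 0) := h3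
      _ = _ := by ring
  · intro a h1 h2
    nlinarith [mul_nonneg (by linarith : (0:ℝ) ≤ a - (2/5)) (by linarith : (0:ℝ) ≤ (2/3) - a)]
  · intro a h1 h2
    nlinarith [sq_nonneg (a - (5/12))]

private lemma RS_fin (n : ℕ) (hn : 2 ≤ n) (κ0 z : ℝ) (hz : 0 < z) (hz1 : z ≤ 1) (hzk : z ≤ κ0)
    (hκ : κ0 ≤ n * kn n) (hzn : n * zn n = z) (hcl : Cl κ0 z) (ε : ℝ) (hε : 0 < ε) :
    ∃ δ > 0, ∀ s r l : ℝ, 0 ≤ s → 0 < r → s + r ≤ zn n - ε → l = r / (kn n - s) →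
      0 ≤ l ∧ l ≤ 1 ∧ ∃ t, 0 ≤ t ∧ t ≤ (1 + l) / 2 ∧
      t ^ 2 / 2 * s ^ 2 + (2 + 2 * l - t) * s * r + 3 / 2 * r ^ 2
        ≤ r * (s + 1 / n) - δ * r := by
  have hn0 : (0:ℝ) < n := by exact_mod_cast (by omega : 0 < n)
  refine ⟨ε, hε, ?_⟩
  intro s r l hs hr hsr hl
  have hl' : l = (n * r) / (n * kn n - n * s) := by
    rw [hl, ← mul_sub, mul_div_mul_left _ _ hn0.ne']
  have hsr' : n * s + n * r ≤ z - n * ε := by
    rw [← hzn, ← mul_sub, ← mul_add]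
    exact mul_le_mul_of_nonneg_left hsr hn0.le
  obtain ⟨a1, a2, t, ht0, ht1, ht⟩ := RS_scale κ0 (n * kn n) z (n * ε) (n * s) (n * r) l hz hz1 hzk hκ hcl
    (by positivity) (by positivity) (by positivity) hsr' hl'
  refine ⟨a1, a2, t, ht0, ht1, ?_⟩
  have hhom : t ^ 2 * (n * s) ^ 2 / (2 * (n * r)) + (1 + 2 * l - t) * (n * s) + 3 / 2 * (n * r)
      = n * (t ^ 2 * s ^ 2 / (2 * r) + (1 + 2 * l - t) * s + 3 / 2 * r) := by
    field_simp
  rw [hhom] at ht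
  have h1 : t ^ 2 * s ^ 2 / (2 * r) + (1 + 2 * l - t) * s + 3 / 2 * r ≤ 1 / n - ε := by
    have : 1 / (n:ℝ) - ε = (1 - n * ε) / n := by field_simp
    rw [this, le_div_iff₀ hn0]; linarith
  have h2 := mul_le_mul_of_nonneg_right h1 hr.le
  have h3 : (t ^ 2 * s ^ 2 / (2 * r) + (1 + 2 * l - t) * s + 3 / 2 * r) * r
      = t ^ 2 / 2 * s ^ 2 + (1 + 2 * l - t) * s * r + 3 / 2 * r ^ 2 := by
    field_simp
  rw [h3] at h2
  nlinarith

theorem hRS : StRS := by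
  intro n hn ε hε
  rcases le_or_gt n 8 with h8 | h8
  · interval_cases n
    · exact RS_fin 2 (by norm_num) (1/6) (1/6) (by norm_num) (by norm_num) (by norm_num)
        (by unfold kn; norm_num) (by unfold zn; norm_num) RS_n2 ε hε
    · exact RS_fin 3 (by norm_num) (4/13) (2/7) (by norm_num) (by norm_num) (by norm_num)
        (by unfold kn; norm_num) (by unfold zn; norm_num) RS_n3 ε hε
    · exact RS_fin 4 (by norm_num) (3/7) (3/8) (by norm_num) (by norm_num) (by norm_num)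
        (by unfold kn; norm_num) (by unfold zn; norm_num) RS_n4 ε hε
    · exact RS_fin 5 (by norm_num) (8/15) (4/9) (by norm_num) (by norm_num) (by norm_num)
        (by unfold kn; norm_num) (by unfold zn; norm_num) RS_n5 ε hε
    · exact RS_fin 6 (by norm_num) (5/8) (1/2) (by norm_num) (by norm_num) (by norm_num)
        (by unfold kn; norm_num) (by unfold zn; norm_num) RS_n6 ε hε
    · exact RS_fin 7 (by norm_num) (12/17) (6/11) (by norm_num) (by norm_num) (by norm_num)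
        (by unfold kn; norm_num) (by unfold zn; norm_num) RS_n7 ε hε
    · exact RS_fin 8 (by norm_num) (7/9) (7/12) (by norm_num) (by norm_num) (by norm_num)
        (by unfold kn; norm_num) (by unfold zn; norm_num) RS_n8 ε hε
  · have hn0 : (0:ℝ) < n := by exact_mod_cast (by omega : 0 < n)
    have hk : (n : ℝ) * kn n = 2 * ((n : ℝ) - 1) / (n + 10) := by
      unfold kn; field_simp
    rcases le_or_gt n 12 with h12 | h12
    · have h9 : (9:ℝ) ≤ n := by exact_mod_cast (by omega : 9 ≤ n)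
      refine RS_fin n hn (16/19) (3/5) (by norm_num) (by norm_num) (by norm_num) ?_ ?_ RS_m9 ε hε
      · rw [hk, le_div_iff₀ (by linarith)]; linarith
      · unfold zn
        rw [if_neg (by omega), if_pos h12]; field_simp
    · have h13 : (13:ℝ) ≤ n := by exact_mod_cast (by omega : 13 ≤ n)
      refine RS_fin n hn (24/23) (2/3) (by norm_num) (by norm_num) (by norm_num) ?_ ?_ RS_m13 ε hε
      · rw [hk, le_div_iff₀ (by linarith)]; linarith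
      · unfold zn
        rw [if_neg (by omega), if_neg (by omega)]; field_simp

end Helper84.PI
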